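import Mathlib

open MeasureTheory Set Filter Topology

namespace Pool.Agent.H.MP_0067de_an

structure Data where
  β : ℝ → ℝ
  B : ℝ
  e : ℕ → ℕ
  w : ℕ → ℝ
  σ : ℕ → ℝ
  β0 : ∀ y, 0 ≤ β y
  βs : ∀ y, β y ≠ 0 → 0 ≤ y ∧ y ≤ 1
  βB : ∀ y, β y ≤ B
  βi : ∫ y, β y = 1
  βc : ContDiff ℝ (⊤ : ℕ∞) β
  em : StrictMono e
  w0 : ∀ i, 0 < w i
  ws : Summable w
  σ0 : ∀ i, 0 < σ i
  σ1 : ∀ i, σ i ≤ 1 / 10

namespace Data
variable (D : Data)

noncomputable def a (i : ℕ) : ℝ := 4 ^ D.e i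

noncomputable def b (i : ℕ) (y : ℝ) : ℝ :=
  D.w i / (D.a i * D.σ i) * D.β ((y - D.a i) / (D.a i * D.σ i))

noncomputable def g (y : ℝ) : ℝ := ∑' i, D.b i y

lemma a_pos (i : ℕ) : 0 < D.a i := by unfold a; positivity

lemma B_pos : 0 < D.B := by
  by_contra! h
  have : D.β = fun _ => 0 := by
    funext y; exact le_antisymm ((D.βB y).trans h) (D.β0 y)
  have h2 := D.βi
  rw [this] at h2; simp at h2

lemma b0 (i : ℕ) (y : ℝ) : 0 ≤ D.b i y := by
  unfold b
  have := D.a_pos i; have := D.σ0 i; have := D.w0 i; have := D.β0 ((y - D.a i) / (D.a i * D.σ i))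
  positivity

lemma b_le (i : ℕ) (y : ℝ) : D.b i y ≤ D.w i / (D.a i * D.σ i) * D.B := by
  unfold b
  have := D.a_pos i; have := D.σ0 i; have := D.w0 i
  exact mul_le_mul_of_nonneg_left (D.βB _) (by positivity)

lemma b_supp {i : ℕ} {y : ℝ} (h : D.b i y ≠ 0) : D.a i ≤ y ∧ y ≤ D.a i * (1 + D.σ i) := by
  have h1 : D.β ((y - D.a i) / (D.a i * D.σ i)) ≠ 0 := by
    intro h0; apply h; unfold b; rw [h0, mul_zero]
  obtain ⟨h2, h3⟩ := D.βs _ h1
  have ha := D.a_pos i; have hs := D.σ0 i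
  have hp : 0 < D.a i * D.σ i := by positivity
  rw [le_div_iff₀ hp] at h2
  rw [div_le_iff₀ hp] at h3
  constructor <;> nlinarith

lemma b_supp' {i : ℕ} {y : ℝ} (h : D.b i y ≠ 0) : D.a i ≤ y ∧ y ≤ D.a i * (11 / 10) := by
  obtain ⟨h1, h2⟩ := D.b_supp h
  refine ⟨h1, h2.trans ?_⟩
  have := D.σ1 i; have := D.a_pos i
  nlinarith

lemma sep {i j : ℕ} (h1 : D.a i < 4 * D.a j) (h2 : D.a j < 4 * D.a i) : i = j := by
  unfold a at h1 h2
  rw [← pow_succ'] at h1 h2
  have k1 := (pow_lt_pow_iff_right₀ (by norm_num : (1:ℝ) < 4)).1 h1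
  have k2 := (pow_lt_pow_iff_right₀ (by norm_num : (1:ℝ) < 4)).1 h2
  exact D.em.injective (by omega)

lemma uniq {i j : ℕ} {y : ℝ} (hi : D.b i y ≠ 0) (hj : D.b j y ≠ 0) : i = j := by
  obtain ⟨h1, h2⟩ := D.b_supp' hi
  obtain ⟨h3, h4⟩ := D.b_supp' hj
  have := D.a_pos i; have := D.a_pos j
  exact D.sep (by linarith) (by linarith)

lemma g_eq {i : ℕ} {y : ℝ} (hi : D.b i y ≠ 0) : D.g y = D.b i y := by
  unfold g
  refine tsum_eq_single i fun j hj => ?_
  by_contra h
  exact hj (D.uniq h hi)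

lemma g_cases (y : ℝ) : D.g y = 0 ∨ ∃ i, D.b i y ≠ 0 ∧ D.g y = D.b i y := by
  by_cases h : ∃ i, D.b i y ≠ 0
  · obtain ⟨i, hi⟩ := h
    exact Or.inr ⟨i, hi, D.g_eq hi⟩
  · push Not at h
    left; unfold g; simp [h]

lemma g0 (y : ℝ) : 0 ≤ D.g y := tsum_nonneg fun i => D.b0 i y

lemma b_le_g (i : ℕ) (y : ℝ) : D.b i y ≤ D.g y := by
  by_cases h : D.b i y = 0
  · rw [h]; exact D.g0 y
  · exact (D.g_eq h).ge

lemma b_integral (i : ℕ) : ∫ y, D.b i y = D.w i := by
  unfold b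
  have ha := D.a_pos i; have hs := D.σ0 i
  have hp : 0 < D.a i * D.σ i := by positivity
  rw [integral_const_mul]
  have h1 := integral_sub_right_eq_self (μ := volume) (fun y => D.β (y / (D.a i * D.σ i))) (D.a i)
  rw [h1, Measure.integral_comp_div, D.βi, abs_of_pos hp, smul_eq_mul]
  field_simp

lemma b_int (i : ℕ) : Integrable (D.b i) :=
  Integrable.of_integral_ne_zero (by rw [D.b_integral]; exact (D.w0 i).ne')

lemma g_integral : ∫ y, D.g y = ∑' i, D.w i := by
  have h := hasSum_integral_of_summable_integral_norm (μ := volume) (F := D.b) D.b_int (by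
    have : (fun i => ∫ y, ‖D.b i y‖) = D.w := by
      funext i
      rw [← D.b_integral i]
      congr 1; funext y; exact Real.norm_of_nonneg (D.b0 i y)
    rw [this]; exact D.ws)
  have h2 : (fun i => ∫ y, D.b i y) = D.w := funext D.b_integral
  rw [h2] at h
  exact h.tsum_eq.symm

lemma g_int : Integrable D.g :=
  Integrable.of_integral_ne_zero (by
    rw [D.g_integral]; exact (D.ws.tsum_pos (fun i => (D.w0 i).le) 0 (D.w0 0)).ne')

lemma b_smooth (i : ℕ) : ContDiff ℝ (⊤ : ℕ∞) (D.b i) := by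
  unfold b
  exact contDiff_const.mul (D.βc.comp ((contDiff_id.sub contDiff_const).div_const _))

lemma g_smooth : ContDiff ℝ (⊤ : ℕ∞) D.g := by
  rw [contDiff_iff_contDiffAt]
  intro x
  obtain ⟨N, hN⟩ := exists_nat_gt (x + 1)
  have h1 : ContDiff ℝ (⊤ : ℕ∞) (fun y => ∑ i ∈ Finset.range N, D.b i y) :=
    ContDiff.sum fun i _ => D.b_smooth i
  refine h1.contDiffAt.congr_of_eventuallyEq ?_
  filter_upwards [Iio_mem_nhds (show x < x + 1 by linarith)] with y hy
  unfold g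
  refine tsum_eq_sum fun i hi => ?_
  by_contra h
  have h2 := (D.b_supp h).1
  have h3 : (N : ℝ) ≤ D.a i := by
    have hi' : N ≤ i := by simpa using hi
    have h4 : i ≤ D.e i := D.em.id_le i
    have h5 : D.e i < 4 ^ D.e i := Nat.lt_pow_self (by norm_num)
    unfold a
    exact_mod_cast (by omega : N ≤ 4 ^ D.e i)
  have : y < x + 1 := hy
  linarith

lemma g_pos_supp {y : ℝ} (h : D.g y ≠ 0) : 0 < y := by
  rcases D.g_cases y with h0 | ⟨i, hi, _⟩
  · exact absurd h0 h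
  · exact lt_of_lt_of_le (D.a_pos i) (D.b_supp hi).1

/-- mass of g in the window t z within ε of d -/
noncomputable def J (ε t d : ℝ) : ℝ := ∫ z, D.g z * (Icc (d - ε) (d + ε)).indicator 1 (t * z)

lemma win_meas (ε t d : ℝ) :
    Measurable fun z : ℝ => (Icc (d - ε) (d + ε)).indicator (1 : ℝ → ℝ) (t * z) :=
  (measurable_one.indicator measurableSet_Icc).comp (measurable_const.mul measurable_id)

lemma win_le (ε t d z : ℝ) : (Icc (d - ε) (d + ε)).indicator (1 : ℝ → ℝ) (t * z) ≤ 1 := by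
  unfold Set.indicator; split_ifs <;> simp

lemma win_nonneg (ε t d z : ℝ) : 0 ≤ (Icc (d - ε) (d + ε)).indicator (1 : ℝ → ℝ) (t * z) := by
  unfold Set.indicator; split_ifs <;> simp

lemma int_win {h : ℝ → ℝ} (hh : Integrable h) (ε t d : ℝ) :
    Integrable fun z => h z * (Icc (d - ε) (d + ε)).indicator (1 : ℝ → ℝ) (t * z) :=
  hh.mul_bdd (c := 1) (win_meas ε t d).aestronglyMeasurable (Eventually.of_forall fun z => by
    rw [Real.norm_of_nonneg (win_nonneg ε t d z)]; exact win_le ε t d z)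

lemma J_ge {ε t d : ℝ} {i : ℕ} (ht : 0 < t) (hd : t * D.a i = d) (hε : d * D.σ i ≤ ε) :
    D.w i ≤ D.J ε t d := by
  rw [← D.b_integral i]
  unfold J
  refine integral_mono (D.b_int i) (int_win D.g_int ε t d) fun z => ?_
  by_cases h : D.b i z = 0
  · simp only [h]
    exact mul_nonneg (D.g0 z) (win_nonneg ε t d z)
  · obtain ⟨h1, h2⟩ := D.b_supp h
    have hs := D.σ0 i; have ha := D.a_pos i
    have hd0 : 0 < d := hd ▸ mul_pos ht ha
    have hm : t * z ∈ Icc (d - ε) (d + ε) := by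
      constructor
      · have : d ≤ t * z := hd ▸ mul_le_mul_of_nonneg_left h1 ht.le
        nlinarith
      · have : t * z ≤ t * (D.a i * (1 + D.σ i)) := mul_le_mul_of_nonneg_left h2 ht.le
        have h3 : t * (D.a i * (1 + D.σ i)) = d + d * D.σ i := by rw [← hd]; ring
        linarith
    simp only [indicator_of_mem hm, Pi.one_apply, mul_one]
    exact D.b_le_g i z

lemma hit {ε t d z : ℝ} {i : ℕ} (ht : 0 < t) (hε : ε ≤ d / 10) (hz : D.b i z ≠ 0)
    (hm : t * z ∈ Icc (d - ε) (d + ε)) : 4 / 5 * d ≤ t * D.a i ∧ t * D.a i ≤ 11 / 10 * d := by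
  obtain ⟨h1, h2⟩ := D.b_supp' hz
  have k1 := mul_le_mul_of_nonneg_left h1 ht.le
  have k2 := mul_le_mul_of_nonneg_left h2 ht.le
  have := mul_pos ht (D.a_pos i)
  obtain ⟨m1, m2⟩ := hm
  constructor <;> nlinarith

lemma J_cases {ε t d : ℝ} (ht : 0 < t) (hε0 : 0 < ε) (hε : ε ≤ d / 10) :
    D.J ε t d = 0 ∨ ∃ i, 4 / 5 * d ≤ t * D.a i ∧ t * D.a i ≤ 11 / 10 * d ∧
      D.J ε t d ≤ D.w i ∧ D.J ε t d ≤ D.w i * D.B * (5 / 2) * ε / (D.σ i * d) := by
  by_cases h : ∃ i z, D.b i z ≠ 0 ∧ t * z ∈ Icc (d - ε) (d + ε)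
  · obtain ⟨i, z0, hz0, hm0⟩ := h
    obtain ⟨k1, k2⟩ := D.hit ht hε hz0 hm0
    have hd : 0 < d := by linarith
    have key : ∀ z, D.g z * (Icc (d - ε) (d + ε)).indicator (1 : ℝ → ℝ) (t * z)
        = D.b i z * (Icc (d - ε) (d + ε)).indicator (1 : ℝ → ℝ) (t * z) := by
      intro z
      by_cases hm : t * z ∈ Icc (d - ε) (d + ε)
      · congr 1
        rcases D.g_cases z with h0 | ⟨j, hj, h0⟩
        · exact le_antisymm (h0 ▸ D.b0 i z) (D.b_le_g i z)
        · obtain ⟨l1, l2⟩ := D.hit ht hε hj hm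
          have : j = i := by
            refine D.sep ?_ ?_
            · exact lt_of_mul_lt_mul_left (a := t) (by nlinarith) ht.le
            · exact lt_of_mul_lt_mul_left (a := t) (by nlinarith) ht.le
          rw [h0, this]
      · simp [indicator_of_notMem hm]
    refine Or.inr ⟨i, k1, k2, ?_, ?_⟩
    · unfold J
      simp only [key]
      rw [← D.b_integral i]
      refine integral_mono (int_win (D.b_int i) ε t d) (D.b_int i) fun z => ?_
      exact mul_le_of_le_one_right (D.b0 i z) (win_le ε t d z)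
    · unfold J
      simp only [key]
      have hwin : ∫ z, (Icc (d - ε) (d + ε)).indicator (1 : ℝ → ℝ) (t * z) = 2 * ε / t := by
        rw [Measure.integral_comp_mul_left (fun y => (Icc (d - ε) (d + ε)).indicator (1 : ℝ → ℝ) y),
          integral_indicator_one measurableSet_Icc, Real.volume_real_Icc_of_le (by linarith),
          abs_of_pos (inv_pos.2 ht), smul_eq_mul]
        field_simp; ring
      have hwi : Integrable fun z => (Icc (d - ε) (d + ε)).indicator (1 : ℝ → ℝ) (t * z) :=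
        Integrable.of_integral_ne_zero (by rw [hwin]; positivity)
      have ha := D.a_pos i; have hs := D.σ0 i; have hw := D.w0 i; have hB := D.B_pos
      calc ∫ z, D.b i z * (Icc (d - ε) (d + ε)).indicator (1 : ℝ → ℝ) (t * z)
          ≤ ∫ z, (D.w i / (D.a i * D.σ i) * D.B) *
              (Icc (d - ε) (d + ε)).indicator (1 : ℝ → ℝ) (t * z) := by
            refine integral_mono (int_win (D.b_int i) ε t d) (hwi.const_mul _) fun z => ?_
            exact mul_le_mul_of_nonneg_right (D.b_le i z) (win_nonneg ε t d z)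
        _ = D.w i * D.B * 2 * ε / (D.σ i * (t * D.a i)) := by
            rw [integral_const_mul, hwin]; field_simp
        _ ≤ D.w i * D.B * 2 * ε / (D.σ i * (4 / 5 * d)) := by gcongr
        _ = D.w i * D.B * (5 / 2) * ε / (D.σ i * d) := by field_simp; ring
  · left
    push Not at h
    unfold J
    have : ∀ z, D.g z * (Icc (d - ε) (d + ε)).indicator (1 : ℝ → ℝ) (t * z) = 0 := by
      intro z
      rcases D.g_cases z with h0 | ⟨j, hj, _⟩
      · rw [h0, zero_mul]
      · simp [indicator_of_notMem (h j z hj)]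
    simp [this]

end Data

end Pool.Agent.H.MP_0067de_an
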