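import Mathlib
import Pool.Agent.H.MP_0067de_an.A

open MeasureTheory Set Filter Topology

namespace Pool.Agent.H.MP_0067de_an

noncomputable def ff (ε : ℝ) : ℝ → ℝ := (Icc (-ε) ε ∪ Icc (1 - ε) (1 + ε)).indicator 1

noncomputable def Mx (φ f : ℝ → ℝ) (x : ℝ) : ℝ :=
  ⨆ t : Ioi (0 : ℝ), ∫ y, ((t : ℝ)⁻¹ * φ (y / t)) * |f (x - y)|

lemma ff_var {ε : ℝ} (h0 : 0 < ε) (h1 : ε < 1 / 2) : eVariationOn (ff ε) univ ≤ 4 := by
  classical
  let G : ℝ → ℝ := fun x => (if -ε ≤ x then 1 else 0) + (if ε < x then 1 else 0) +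
    (if 1 - ε ≤ x then 1 else 0) + (if 1 + ε < x then 1 else 0)
  have hG0 : ∀ x, 0 ≤ G x := by intro x; simp only [G]; split_ifs <;> norm_num
  have hG4 : ∀ x, G x ≤ 4 := by intro x; simp only [G]; split_ifs <;> norm_num
  have hf : ∀ x, ff ε x = (if -ε ≤ x then 1 else 0) - (if ε < x then 1 else 0) +
    (if 1 - ε ≤ x then 1 else 0) - (if 1 + ε < x then 1 else 0) := by
    intro x
    unfold ff Set.indicator
    simp only [mem_union, mem_Icc, Pi.one_apply]
    by_cases a1 : -ε ≤ x <;> by_cases a2 : x ≤ ε <;> by_cases a3 : 1 - ε ≤ x <;>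
      by_cases a4 : x ≤ 1 + ε <;>
      first
        | (exfalso; linarith)
        | simp [a1, a2, a3, a4, not_lt.2, lt_of_not_ge]
  have hstep : ∀ (p : ℝ → Prop) [DecidablePred p] {x y : ℝ}, (p x → p y) →
      (if p x then (1:ℝ) else 0) ≤ (if p y then 1 else 0) := by
    intro p _ x y h
    split_ifs with a b
    · exact le_rfl
    · exact absurd (h a) b
    · norm_num
    · exact le_rfl
  have hd : ∀ x y, x ≤ y → |ff ε y - ff ε x| ≤ G y - G x := by
    intro x y hxy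
    rw [hf, hf]
    simp only [G]
    have s1 := hstep (fun x => -ε ≤ x) (x := x) (y := y) (fun h => by linarith)
    have s2 := hstep (fun x => ε < x) (x := x) (y := y) (fun h => by linarith)
    have s3 := hstep (fun x => 1 - ε ≤ x) (x := x) (y := y) (fun h => by linarith)
    have s4 := hstep (fun x => 1 + ε < x) (x := x) (y := y) (fun h => by linarith)
    rw [abs_le]; constructor <;> linarith
  unfold eVariationOn
  refine iSup_le fun p => ?_
  obtain ⟨n, u, hu, -⟩ := p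
  simp only
  have h2 : ∀ i, edist (ff ε (u (i + 1))) (ff ε (u i)) ≤ ENNReal.ofReal (G (u (i + 1)) - G (u i)) := by
    intro i
    rw [edist_dist, Real.dist_eq]
    exact ENNReal.ofReal_le_ofReal (hd _ _ (hu (Nat.le_succ i)))
  refine (Finset.sum_le_sum fun i _ => h2 i).trans ?_
  rw [← ENNReal.ofReal_sum_of_nonneg (fun i _ => (abs_nonneg _).trans (hd _ _ (hu (Nat.le_succ i)))),
    Finset.sum_range_sub (fun i => G (u i))]
  have : G (u n) - G (u 0) ≤ 4 := by linarith [hG0 (u 0), hG4 (u n)]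
  calc ENNReal.ofReal (G (u n) - G (u 0)) ≤ ENNReal.ofReal 4 := ENNReal.ofReal_le_ofReal this
    _ = 4 := by norm_num

lemma ff_meas (ε : ℝ) : Measurable (ff ε) :=
  measurable_one.indicator (measurableSet_Icc.union measurableSet_Icc)

lemma ff_abs_le (ε x : ℝ) : |ff ε x| ≤ 1 := by
  unfold ff Set.indicator; split_ifs <;> simp

namespace Data
variable (D : Data)

noncomputable def φ (y : ℝ) : ℝ := D.g y + D.g (-y)

lemma F_eq {ε t x : ℝ} (ht : 0 < t) (h0 : 0 < ε) (h1 : ε ≤ x / 10) (h2 : ε ≤ (1 - x) / 10) :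
    ∫ y, (t⁻¹ * D.φ (y / t)) * |ff ε (x - y)| = D.J ε t x + D.J ε t (1 - x) := by
  have e1 : (fun y => (t⁻¹ * D.φ (y / t)) * |ff ε (x - y)|) =
      fun y => (fun z => t⁻¹ * (D.φ z * |ff ε (x - t * z)|)) (y / t) := by
    funext y
    simp only
    rw [mul_div_cancel₀ _ ht.ne', mul_assoc]
  rw [e1, Measure.integral_comp_div (fun z => t⁻¹ * (D.φ z * |ff ε (x - t * z)|)), integral_const_mul,
    abs_of_pos ht, smul_eq_mul, ← mul_assoc, mul_inv_cancel₀ ht.ne', one_mul]
  have hm : AEStronglyMeasurable (fun z => |ff ε (x - t * z)|) volume :=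
    ((ff_meas ε).comp (measurable_const.sub (measurable_const.mul measurable_id))).abs.aestronglyMeasurable
  have hb : ∀ᵐ z ∂(volume : Measure ℝ), ‖|ff ε (x - t * z)|‖ ≤ 1 := Eventually.of_forall fun z => by
    rw [Real.norm_eq_abs, abs_abs]; exact ff_abs_le _ _
  have i1 : Integrable fun z => D.g z * |ff ε (x - t * z)| := D.g_int.mul_bdd hm hb
  have i2 : Integrable fun z => D.g (-z) * |ff ε (x - t * z)| := D.g_int.comp_neg.mul_bdd hm hb
  unfold φ
  simp only [add_mul]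
  rw [integral_add i1 i2]
  have e2 := integral_neg_eq_self (fun z => D.g (-z) * |ff ε (x - t * z)|) volume
  rw [← e2]
  unfold J
  congr 1
  · congr 1; funext z
    by_cases hz : D.g z = 0
    · simp [hz]
    · have hz0 := mul_pos ht (D.g_pos_supp hz)
      congr 1
      unfold ff Set.indicator
      simp only [mem_union, mem_Icc, Pi.one_apply]
      by_cases hc : x - ε ≤ t * z ∧ t * z ≤ x + ε
      · rw [if_pos hc, if_pos (Or.inl ⟨by linarith [hc.2], by linarith [hc.1]⟩)]; simp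
      · rw [if_neg hc, if_neg]
        · simp
        · rintro (⟨a, b⟩ | ⟨a, b⟩)
          · exact hc ⟨by linarith, by linarith⟩
          · linarith
  · congr 1; funext z
    simp only [neg_neg]
    by_cases hz : D.g z = 0
    · simp [hz]
    · have hz0 := mul_pos ht (D.g_pos_supp hz)
      congr 1
      unfold ff Set.indicator
      simp only [mem_union, mem_Icc, Pi.one_apply]
      by_cases hc : 1 - x - ε ≤ t * z ∧ t * z ≤ 1 - x + ε
      · rw [if_pos hc, if_pos (Or.inr ⟨by linarith [hc.1], by linarith [hc.2]⟩)]; simp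
      · rw [if_neg hc, if_neg]
        · simp
        · rintro (⟨a, b⟩ | ⟨a, b⟩)
          · linarith
          · exact hc ⟨by linarith, by linarith⟩

lemma J_le_total (ε t d : ℝ) : D.J ε t d ≤ ∫ y, D.g y :=
  integral_mono (int_win D.g_int ε t d) D.g_int fun z =>
    mul_le_of_le_one_right (D.g0 z) (win_le ε t d z)

lemma M_good {ε x : ℝ} {i j k : ℕ} (h0 : 0 < ε) (h1 : ε ≤ x / 10) (h2 : ε ≤ (1 - x) / 10)
    (hx : x = 4 ^ k * (1 - x)) (hk : D.e j = k + D.e i) (hi : D.σ i ≤ ε) (hj : D.σ j ≤ ε) :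
    D.w j + D.w i ≤ Mx D.φ (ff ε) x := by
  have hx0 : 0 < x := by linarith
  have hx1 : 0 < 1 - x := by linarith
  have ha := D.a_pos j
  have ht : 0 < x / D.a j := by positivity
  have hb : BddAbove (range fun t : Ioi (0:ℝ) =>
      ∫ y, ((t : ℝ)⁻¹ * D.φ (y / t)) * |ff ε (x - y)|) := by
    refine ⟨2 * ∫ y, D.g y, ?_⟩
    rintro _ ⟨t, rfl⟩
    simp only
    rw [D.F_eq t.2 h0 h1 h2]
    linarith [D.J_le_total ε t x, D.J_le_total ε t (1 - x)]
  refine le_trans ?_ (le_ciSup hb ⟨x / D.a j, ht⟩)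
  simp only
  rw [D.F_eq ht h0 h1 h2]
  have s1 := D.σ0 i; have s2 := D.σ0 j
  refine add_le_add (D.J_ge ht (by field_simp) (by nlinarith)) (D.J_ge ht ?_ (by nlinarith))
  have : D.a j = 4 ^ k * D.a i := by unfold a; rw [hk, pow_add]
  rw [this]
  have hai := D.a_pos i
  have : x / (4 ^ k * D.a i) * D.a i = x / 4 ^ k := by field_simp
  rw [this, div_eq_iff (by positivity)]
  linarith

lemma M_bad {ε x W m : ℝ} {k : ℕ} (h0 : 0 < ε) (hm : ε ≤ m / 10) (h1 : m ≤ x) (h2 : m ≤ 1 - x)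
    (hx : x = 2 * 4 ^ k * (1 - x)) (hW0 : 0 ≤ W)
    (hW : ∀ i, D.w i ≤ W ∨ D.w i * D.B * (5 / 2) * ε / (D.σ i * m) ≤ W) :
    Mx D.φ (ff ε) x ≤ W := by
  have hm0 : 0 < m := by linarith
  refine ciSup_le fun t => ?_
  have ht : 0 < (t : ℝ) := t.2
  rw [D.F_eq ht h0 (by linarith) (by linarith)]
  have hJ : ∀ d, m ≤ d → ∀ i, D.J ε t d ≤ D.w i →
      D.J ε t d ≤ D.w i * D.B * (5 / 2) * ε / (D.σ i * d) → D.J ε t d ≤ W := by
    intro d hd i a1 a2
    rcases hW i with h | h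
    · exact a1.trans h
    · refine a2.trans (le_trans ?_ h)
      have := D.w0 i; have := D.B_pos; have := D.σ0 i
      gcongr
  rcases D.J_cases ht h0 (show ε ≤ x / 10 by linarith) with c1 | ⟨j, j1, j2, j3, j4⟩
  · rcases D.J_cases ht h0 (show ε ≤ (1 - x) / 10 by linarith) with c2 | ⟨i, i1, i2, i3, i4⟩
    · linarith
    · have := hJ _ h2 i i3 i4; linarith
  · rcases D.J_cases ht h0 (show ε ≤ (1 - x) / 10 by linarith) with c2 | ⟨i, i1, i2, i3, i4⟩
    · have := hJ _ h1 j j3 j4; linarith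
    · exfalso
      have hy : 0 < 1 - x := by linarith
      have h4 : (0:ℝ) < 4 ^ k := by positivity
      have hai := D.a_pos i
      generalize 1 - x = y at *
      have l1 : 4 ^ k * D.a i < D.a j := by
        refine lt_of_mul_lt_mul_left (a := (t:ℝ)) ?_ ht.le
        have : (t:ℝ) * (4 ^ k * D.a i) = 4 ^ k * (t * D.a i) := by ring
        rw [this]
        have := mul_le_mul_of_nonneg_left i2 h4.le
        have := mul_pos h4 hy
        nlinarith
      have l2 : D.a j < 4 * (4 ^ k * D.a i) := by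
        refine lt_of_mul_lt_mul_left (a := (t:ℝ)) ?_ ht.le
        have : (t:ℝ) * (4 * (4 ^ k * D.a i)) = 4 * (4 ^ k * (t * D.a i)) := by ring
        rw [this]
        have := mul_le_mul_of_nonneg_left i1 h4.le
        have := mul_pos h4 hy
        nlinarith
      unfold a at l1 l2
      rw [← pow_add] at l1 l2
      rw [← pow_succ'] at l2
      have k1 := (pow_lt_pow_iff_right₀ (by norm_num : (1:ℝ) < 4)).1 l1
      have k2 := (pow_lt_pow_iff_right₀ (by norm_num : (1:ℝ) < 4)).1 l2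
      omega

lemma var_ge {ε W : ℝ} {N : ℕ} (P : Finset (ℕ × ℕ)) (h0 : 0 < ε)
    (hm : ε ≤ (1 / (1 + 2 ^ N)) / 10) (hW0 : 0 ≤ W)
    (hW : ∀ i, D.w i ≤ W ∨ D.w i * D.B * (5 / 2) * ε / (D.σ i * (1 / (1 + 2 ^ N))) ≤ W)
    (hP : ∀ p ∈ P, D.e p.1 ≤ D.e p.2 ∧ 2 * (D.e p.2 - D.e p.1) + 1 ≤ N ∧ W ≤ D.w p.1 ∧ W ≤ D.w p.2 ∧
      D.σ p.1 ≤ ε ∧ D.σ p.2 ≤ ε)
    (hinj : InjOn (fun p : ℕ × ℕ => 2 * (D.e p.2 - D.e p.1)) P) :
    ENNReal.ofReal (P.card * W) ≤ eVariationOn (Mx D.φ (ff ε)) univ := by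
  let u : ℕ → ℝ := fun n => 1 - 1 / (1 + 2 ^ n)
  have hu : Monotone u := by
    intro a b hab
    simp only [u]
    have : (2:ℝ) ^ a ≤ 2 ^ b := pow_le_pow_right₀ (by norm_num) hab
    gcongr
  have hu1 : ∀ n, u n = 2 ^ n * (1 - u n) := by
    intro n; simp only [u]; field_simp; ring
  have hu2 : ∀ n ≤ N, 1 / (1 + 2 ^ N) ≤ 1 - u n := by
    intro n hn
    simp only [u, sub_sub_cancel]
    have : (2:ℝ) ^ n ≤ 2 ^ N := pow_le_pow_right₀ (by norm_num) hn
    gcongr
  have hu3 : ∀ n ≤ N, 1 / (1 + 2 ^ N) ≤ u n := by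
    intro n hn
    have h1 := hu2 n hn
    have h2 : (1:ℝ) ≤ 2 ^ n := one_le_pow₀ (by norm_num)
    have h3 : (0:ℝ) < 1 / (1 + 2 ^ N) := by positivity
    rw [hu1 n]; nlinarith
  refine le_trans ?_ (eVariationOn.sum_le (n := N) hu fun _ => mem_univ _)
  set F := Mx D.φ (ff ε)
  calc ENNReal.ofReal (P.card * W) = ∑ p ∈ P, ENNReal.ofReal W := by
        rw [Finset.sum_const, nsmul_eq_mul, ENNReal.ofReal_mul (Nat.cast_nonneg _), ENNReal.ofReal_natCast]
    _ ≤ ∑ p ∈ P, edist (F (u (2 * (D.e p.2 - D.e p.1) + 1))) (F (u (2 * (D.e p.2 - D.e p.1)))) := by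
        refine Finset.sum_le_sum fun p hp => ?_
        obtain ⟨p1, p2, p3, p4, p5, p6⟩ := hP p hp
        set k := D.e p.2 - D.e p.1
        have g1 := D.M_good (x := u (2 * k)) (i := p.1) (j := p.2) (k := k) h0
          (by linarith [hu3 (2 * k) (by omega)]) (by linarith [hu2 (2 * k) (by omega)])
          (by rw [show (4:ℝ) ^ k = 2 ^ (2 * k) by rw [pow_mul]; norm_num]; exact hu1 _)
          (by omega) p5 p6
        have g2 := D.M_bad (x := u (2 * k + 1)) (k := k) h0 hm (hu3 _ p2) (hu2 _ p2)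
          (by rw [show 2 * (4:ℝ) ^ k = 2 ^ (2 * k + 1) by rw [pow_succ', pow_mul]; norm_num]
              exact hu1 _) hW0 hW
        rw [edist_dist, Real.dist_eq]
        refine ENNReal.ofReal_le_ofReal (le_trans ?_ (neg_le_abs _))
        simp only [F]
        linarith
    _ = ∑ n ∈ P.image (fun p : ℕ × ℕ => 2 * (D.e p.2 - D.e p.1)),
          edist (F (u (n + 1))) (F (u n)) := by
        rw [Finset.sum_image hinj]
    _ ≤ _ := by
        refine Finset.sum_le_sum_of_subset fun n hn => ?_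
        obtain ⟨p, hp, rfl⟩ := Finset.mem_image.1 hn
        have := (hP p hp).2.1
        exact Finset.mem_range.2 (by omega)

end Data

end Pool.Agent.H.MP_0067de_an
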