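import Mathlib
import Pool.Agent.H.MP_0067de_an.B

open MeasureTheory Set Filter Topology

namespace Pool.Agent.H.MP_0067de_an

noncomputable def bump : ContDiffBump (1 / 2 : ℝ) := ⟨1 / 4, 1 / 2, by norm_num, by norm_num⟩

noncomputable def β0 : ℝ → ℝ := bump.normed volume

noncomputable def B0 : ℝ := 1 / (volume : Measure ℝ).real (Metric.closedBall (1 / 2 : ℝ) bump.rIn)

def NN (k : ℕ) : ℕ := 2 * 2 ^ (2 ^ (k + 1)) + 1

noncomputable def η (k : ℕ) : ℝ := 1 / (3 ^ k * (1 + 2 ^ NN k) * (3 * B0 + 1))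

noncomputable def τ : ℕ → ℝ
  | 0 => 1 / 10
  | k + 1 => τ k * η (k + 1)

lemma B0_nonneg : 0 ≤ B0 := by unfold B0; positivity

lemma η_pos (k : ℕ) : 0 < η k := by unfold η; have := B0_nonneg; positivity

lemma η_le (k : ℕ) : η k ≤ 1 / (1 + 2 ^ NN k) := by
  unfold η
  have := B0_nonneg
  have h3 : (1:ℝ) ≤ 3 ^ k := one_le_pow₀ (by norm_num)
  have h2 : (0:ℝ) < 1 + 2 ^ NN k := by positivity
  refine one_div_le_one_div_of_le h2 ?_
  generalize (1 + 2 ^ NN k : ℝ) = q at *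
  have : 1 * q * 1 ≤ 3 ^ k * q * (3 * B0 + 1) := by gcongr; linarith
  linarith

lemma η_le_one (k : ℕ) : η k ≤ 1 := by
  refine (η_le k).trans ?_
  rw [div_le_one (by positivity)]
  have : (0:ℝ) < 2 ^ NN k := by positivity
  linarith

lemma τ_pos : ∀ k, 0 < τ k
  | 0 => by simp [τ]
  | k + 1 => mul_pos (τ_pos k) (η_pos _)

lemma τ_anti : Antitone τ := antitone_nat_of_succ_le fun k =>
  mul_le_of_le_one_right (τ_pos k).le (η_le_one _)

lemma τ_le (k : ℕ) : τ k ≤ 1 / 10 := τ_anti (Nat.zero_le k)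

noncomputable def ss (k : ℕ) : ℕ := ⌈1 / τ k⌉₊

lemma ss_mono : Monotone ss := fun _ b h =>
  Nat.ceil_mono (one_div_le_one_div_of_le (τ_pos b) (τ_anti h))

lemma sum3 : Summable fun i : ℕ => (1 / 3 : ℝ) ^ Nat.log 2 i := by
  rw [← summable_condensed_iff_of_nonneg (fun n => by positivity) (fun m n _ h =>
    pow_le_pow_of_le_one (by norm_num) (by norm_num) (Nat.log_mono_right h))]
  simp only [Nat.log_pow (by norm_num : 1 < 2), ← mul_pow]
  exact summable_geometric_of_lt_one (by norm_num) (by norm_num)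

noncomputable def S0 : ℝ := ∑' i : ℕ, (1 / 3 : ℝ) ^ Nat.log 2 i

lemma S0_pos : 0 < S0 := sum3.tsum_pos (fun _ => by positivity) 0 (by positivity)

noncomputable def c0 : ℝ := 1 / (2 * S0)

lemma c0_pos : 0 < c0 := by unfold c0; have := S0_pos; positivity

noncomputable def D0 : Data where
  β := β0
  B := B0
  e i := ss (Nat.log 2 i) + 2 ^ i
  w i := c0 * (1 / 3) ^ Nat.log 2 i
  σ i := τ (Nat.log 2 i)
  β0 y := bump.nonneg_normed y
  βs y h := by
    have : y ∈ Function.support (bump.normed volume) := h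
    rw [ContDiffBump.support_normed_eq, Metric.mem_ball, Real.dist_eq, abs_lt] at this
    have h2 : bump.rOut = 1 / 2 := rfl
    rw [h2] at this
    constructor <;> linarith [this.1, this.2]
  βB y := bump.normed_le_div_measure_closedBall_rIn volume y
  βi := bump.integral_normed
  βc := bump.contDiff_normed
  em := strictMono_nat_of_lt_succ fun i => by
    have h1 := ss_mono (Nat.log_mono_right (b := 2) (Nat.le_succ i))
    have h2 : 2 ^ i < 2 ^ (i + 1) := Nat.pow_lt_pow_right (by norm_num) (Nat.lt_succ_self i)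
    simp only [Nat.succ_eq_add_one] at h1
    omega
  w0 i := by have := c0_pos; positivity
  ws := sum3.mul_left _
  σ0 i := τ_pos _
  σ1 i := τ_le _

lemma g_bdd (y : ℝ) : D0.g y ≤ c0 * B0 := by
  have hc := c0_pos; have hB := B0_nonneg
  rcases D0.g_cases y with h | ⟨i, -, h⟩
  · rw [h]; positivity
  · rw [h]
    refine (D0.b_le i y).trans ?_
    refine mul_le_mul_of_nonneg_right ?_ hB
    have ha := D0.a_pos i; have hs := D0.σ0 i
    have h1 : 1 ≤ D0.a i * D0.σ i := by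
      have h2 : 1 / τ (Nat.log 2 i) ≤ ss (Nat.log 2 i) := Nat.le_ceil _
      have h3 : ss (Nat.log 2 i) ≤ 4 ^ D0.e i := by
        have h5 : D0.e i < 4 ^ D0.e i := Nat.lt_pow_self (by norm_num)
        have h6 : ss (Nat.log 2 i) ≤ D0.e i := Nat.le_add_right _ _
        omega
      have h4 : (ss (Nat.log 2 i) : ℝ) ≤ D0.a i := by unfold Data.a; exact_mod_cast h3
      have h7 : 1 / D0.σ i ≤ D0.a i := h2.trans h4
      rwa [div_le_iff₀ hs] at h7
    have h8 : D0.w i ≤ c0 :=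
      mul_le_of_le_one_right hc.le (pow_le_one₀ (by norm_num) (by norm_num))
    rw [div_le_iff₀ (by positivity)]
    nlinarith

lemma φ_integral : ∫ y, D0.φ y = 1 := by
  unfold Data.φ
  rw [integral_add D0.g_int D0.g_int.comp_neg, integral_neg_eq_self, D0.g_integral]
  have : ∑' i, D0.w i = c0 * S0 := tsum_mul_left
  rw [this]; unfold c0; have := S0_pos; field_simp; norm_num

lemma sidon {i j i' j' : ℕ} (h : i < j) (h' : i' < j') (e : 2 ^ j + 2 ^ i' = 2 ^ j' + 2 ^ i) :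
    i = i' ∧ j = j' := by
  have key : ∀ {a b c d : ℕ}, c < d → b < d → 2 ^ b + 2 ^ c ≠ 2 ^ d + 2 ^ a := by
    intro a b c d h1 h2
    obtain ⟨m, rfl⟩ : ∃ m, d = m + 1 := ⟨d - 1, by omega⟩
    have k1 : 2 ^ b ≤ 2 ^ m := Nat.pow_le_pow_right (by norm_num) (by omega)
    have k2 : 2 ^ c ≤ 2 ^ m := Nat.pow_le_pow_right (by norm_num) (by omega)
    have k3 : 0 < 2 ^ a := by positivity
    rw [pow_succ]; omega
  have hj : j = j' := by
    rcases lt_trichotomy j j' with l | l | l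
    · exact absurd e (key h' l)
    · exact l
    · exact absurd e.symm (key h l)
  subst hj
  exact ⟨(Nat.pow_right_injective (le_refl 2) (by simpa using e)).symm, rfl⟩

lemma level (k : ℕ) : ENNReal.ofReal (c0 / 3 * (4 / 3) ^ k) ≤
    eVariationOn (Mx D0.φ (ff (τ (k + 1)))) univ := by
  have hc := c0_pos; have hB := B0_nonneg
  let P := Finset.Ico (2 * 2 ^ k) (3 * 2 ^ k) ×ˢ Finset.Ico (3 * 2 ^ k) (4 * 2 ^ k)
  have hlog : ∀ i, 2 * 2 ^ k ≤ i → i < 4 * 2 ^ k → Nat.log 2 i = k + 1 := by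
    intro i h1 h2
    refine Nat.log_eq_of_pow_le_of_lt_pow ?_ ?_
    · rw [pow_succ]; omega
    · rw [pow_succ, pow_succ]; omega
  have hmem : ∀ p ∈ P, Nat.log 2 p.1 = k + 1 ∧ Nat.log 2 p.2 = k + 1 ∧ p.1 < p.2 ∧
      p.2 < 2 ^ (k + 1 + 1) := by
    intro p hp
    simp only [P, Finset.mem_product, Finset.mem_Ico] at hp
    refine ⟨hlog _ (by omega) (by omega), hlog _ (by omega) (by omega), by omega, ?_⟩
    rw [pow_succ, pow_succ]; omega
  have he : ∀ p ∈ P, D0.e p.1 = ss (k + 1) + 2 ^ p.1 ∧ D0.e p.2 = ss (k + 1) + 2 ^ p.2 := by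
    intro p hp
    obtain ⟨a1, a2, -, -⟩ := hmem p hp
    simp only [D0, a1, a2, and_self]
  have h := D0.var_ge (ε := τ (k + 1)) (W := c0 * (1 / 3) ^ (k + 1)) (N := NN (k + 1)) P (τ_pos _)
    ?_ (by positivity) ?_ ?_ ?_
  · refine le_trans (le_of_eq ?_) h
    congr 1
    simp only [P, Finset.card_product, Nat.card_Ico]
    rw [show 3 * 2 ^ k - 2 * 2 ^ k = 2 ^ k by omega, show 4 * 2 ^ k - 3 * 2 ^ k = 2 ^ k by omega]
    push_cast
    rw [← mul_pow, pow_succ, show (4 / 3 : ℝ) = 2 * 2 * (1 / 3) by norm_num, mul_pow _ (1 / 3 : ℝ)]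
    ring
  · have h1 := τ_le k; have h2 := η_le (k + 1); have h3 := η_pos (k + 1); have := τ_pos k
    show τ k * η (k + 1) ≤ _
    nlinarith
  · intro i
    by_cases hi : k + 1 ≤ Nat.log 2 i
    · left
      exact mul_le_mul_of_nonneg_left (pow_le_pow_of_le_one (by norm_num) (by norm_num) hi) hc.le
    · right
      have h1 : τ k ≤ D0.σ i := τ_anti (by omega)
      have h8 : D0.w i ≤ c0 :=
        mul_le_of_le_one_right hc.le (pow_le_one₀ (by norm_num) (by norm_num))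
      have h2 := τ_pos k; have h3 := η_pos (k + 1); have h4 := τ_pos (k + 1)
      have h5 : D0.B = B0 := rfl
      have h6 := D0.w0 i
      rw [h5]
      calc D0.w i * B0 * (5 / 2) * τ (k + 1) / (D0.σ i * (1 / (1 + 2 ^ NN (k + 1))))
          ≤ c0 * B0 * (5 / 2) * τ (k + 1) / (τ k * (1 / (1 + 2 ^ NN (k + 1)))) := by gcongr
        _ = c0 * (1 / 3) ^ (k + 1) * (B0 * (5 / 2) / (3 * B0 + 1)) := by
            have e1 : τ (k + 1) = τ k * η (k + 1) := rfl
            rw [e1]; unfold η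
            have q0 : (0:ℝ) < 1 + 2 ^ NN (k + 1) := by positivity
            generalize (1 + 2 ^ NN (k + 1) : ℝ) = q at *
            rw [one_div_pow]
            field_simp
        _ ≤ c0 * (1 / 3) ^ (k + 1) := by
            refine mul_le_of_le_one_right (by positivity) ?_
            rw [div_le_one (by positivity)]; linarith
  · intro p hp
    obtain ⟨a1, a2, a3, a4⟩ := hmem p hp
    obtain ⟨e1, e2⟩ := he p hp
    have k1 : 2 ^ p.1 ≤ 2 ^ p.2 := Nat.pow_le_pow_right (by norm_num) a3.le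
    have k2 : 2 ^ p.2 ≤ 2 ^ (2 ^ (k + 1 + 1)) := Nat.pow_le_pow_right (by norm_num) a4.le
    refine ⟨by omega, ?_, ?_, ?_, ?_, ?_⟩
    · unfold NN; rw [e1, e2, Nat.add_sub_add_left]
      exact Nat.succ_le_succ (Nat.mul_le_mul_left 2 ((Nat.sub_le _ _).trans k2))
    · simp only [D0, a1, le_refl]
    · simp only [D0, a2, le_refl]
    · simp only [D0, a1, le_refl]
    · simp only [D0, a2, le_refl]
  · intro p hp q hq hpq
    obtain ⟨-, -, a3, -⟩ := hmem p hp
    obtain ⟨-, -, b3, -⟩ := hmem q hq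
    obtain ⟨e1, e2⟩ := he p hp
    obtain ⟨f1, f2⟩ := he q hq
    have k1 : 2 ^ p.1 ≤ 2 ^ p.2 := Nat.pow_le_pow_right (by norm_num) a3.le
    have k2 : 2 ^ q.1 ≤ 2 ^ q.2 := Nat.pow_le_pow_right (by norm_num) b3.le
    simp only [e1, e2, f1, f2] at hpq
    have := sidon a3 b3 (by omega)
    exact Prod.ext this.1 this.2

theorem main : ∃ φ : ℝ → ℝ, (∀ x, 0 ≤ φ x) ∧ Integrable φ ∧ ∫ x, φ x = 1 ∧
    ContDiff ℝ (⊤ : ℕ∞) φ ∧ (∀ x, φ (-x) = φ x) ∧ BddAbove (range φ) ∧
    ∀ C : ℝ, ∃ f : ℝ → ℝ, eVariationOn f univ ≤ 4 ∧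
      ENNReal.ofReal C ≤ eVariationOn (Mx φ f) univ := by
  refine ⟨D0.φ, fun x => add_nonneg (D0.g0 _) (D0.g0 _), D0.g_int.add D0.g_int.comp_neg, φ_integral,
    D0.g_smooth.add (D0.g_smooth.comp contDiff_neg), fun x => ?_, ⟨2 * (c0 * B0), ?_⟩, fun C => ?_⟩
  · simp [Data.φ, add_comm]
  · rintro _ ⟨x, rfl⟩
    unfold Data.φ
    linarith [g_bdd x, g_bdd (-x)]
  · have hc := c0_pos
    obtain ⟨k, hk⟩ := pow_unbounded_of_one_lt (C / (c0 / 3)) (by norm_num : (1:ℝ) < 4 / 3)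
    refine ⟨ff (τ (k + 1)), ff_var (τ_pos _) (by linarith [τ_le (k + 1)]), le_trans ?_ (level k)⟩
    refine ENNReal.ofReal_le_ofReal ?_
    rw [div_lt_iff₀ (by positivity)] at hk
    linarith

end Pool.Agent.H.MP_0067de_an
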